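import Pool.Agent.Results.MP_cd906c_nt.ExactDensityTotallyReal
import Pool.Agent.N869.ZE.A.Fin

/-!
# A fixed curve without complex multiplication over the multiquadratic fields of a fixed conductor

`E_m` is the quadratic twist by `m` of the modular curve `X_0(15)`, a semistable curve over `ℚ` without
complex multiplication. Fix a squarefree number `n ≡ 23, 47 mod 60` such that `ℚ(√-n)` has no ideal class
of order four (for instance any prime `n`), and the curve `E = E_{-n}`. Fix `r ≥ 2`. For a squarefree
number `f` prime to `30 n` we consider all the totally real fields `F = ℚ(√d_1, …, √d_r)` of degree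
`2 ^ r` and of conductor `f` in which `2` is unramified and `3` and `5` split: the `d_i > 0` are squarefree,
`d_i ≡ 1 mod 12`, `d_i ≡ ± 1 mod 5`, and their prime divisors together are the prime divisors of `f`.

* For ALMOST EVERY FIXED conductor `f` (natural density one), and not only on the average over
  `f`, the proportion of the tuples `(d_1, …, d_r)` for which `E` is good over `F`, is as close as we
  like to `η ^ (2 ^ r - 1)`, `η = (1 - 1/2) (1 - 1/4) (1 - 1/8) ⋯ = 0.2888…`. Good means: the `2 ^ r`
  curves over `ℚ` that become isomorphic to `E` over `F` have finitely many rational points and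
  no element of order two in the Tate-Shafarevich group. More generally the conditions on the
  twists by `d_T = ∏_{i ∈ T} d_i` for the `T` in any set `𝒯` of nonempty subsets of `{1, …, r}` hold for
  a proportion close to `η ^ #𝒯`: the `2 ^ r - 1` characters of the field behave like independent
  random variables.
* For all the good fields `E(F)` is finite, `L(E/F, s)` extends to an entire function that does not vanish
  at `s = 1`, and the 2-primary part of `Ш(E/F)` is finite, killed by `2 ^ r`. The good fields are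
  those for which none of the `2 ^ r` fields `ℚ(√(- n d_T))` has an ideal class of order four.

Before (`MP_cd906c_nt/ExactDensityTotallyReal`, helper856 and others) the law was known when one new
quadratic field `ℚ(√D)` is added to a fixed field and `D` is averaged over all numbers `≤ X`. Here
all the quadratic subfields vary simultaneously, no field is fixed, and the conductor `f` is not averaged.
For `f ≤ X` the number of fields is a power of `2 ^ ω(f)`, so that the proportions of single `f`
are averages over thin sets.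

Proof. A tuple of conductor `f` is a colouring of the prime divisors of `f` by the nonempty subsets of
`{1, …, r}`. The proportion of the good colourings is a random variable in `f`; its first and second
moments are averages over all `f` and all colourings of joint events for families of systems of colours.
For a fixed random colouring of all the primes, boxes of large primes with a fixed label (the colour, the
residues modulo 60), the large sieve for quadratic symbols, and an exact count of the labellings for
which the Rédei matrices of all the systems have rank as large as possible give these joint laws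
(`Pool/Agent/N869/ZE`, parts by helpers 9, 123, 196, 322, 475, 814).
-/

set_option autoImplicit false

namespace Pool.Agent.Results.MP_f50388_nt.FieldsX15

open Pool.Agent.Results.MP_cd906c_nt.ExactDensityTotallyReal (RankZeroShaTwo NoOrderFour Twist Disc
  Independent IsMultiquadratic Setting Good BSDZero eta HasDensity)

/-- The tuples `(d_1, …, d_r)` of numbers of the family such that `ℚ(√d_1, …, √d_r)` has degree `2 ^ r` and
the primes which divide some `d_i` are the prime divisors of `f`. -/
def tuples (r f : ℕ) : Set (Fin r → ℕ) :=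
  {d | (∀ i, Disc (d i)) ∧ Independent d ∧ ∀ p : ℕ, p.Prime → (p ∣ f ↔ ∃ i, p ∣ d i)}

/-- There are tuples of conductor `f`, finitely many, and the proportion of those with the property `P`
differs from `q` by at most `δ`. -/
def Close {r : ℕ} (P : (Fin r → ℕ) → Prop) (q δ : ℝ) (f : ℕ) : Prop :=
  (tuples r f).Finite ∧ 0 < (tuples r f).ncard ∧
    |({d ∈ tuples r f | P d}.ncard : ℝ) / ((tuples r f).ncard : ℝ) - q| ≤ δ

/-- The conductors. -/
def Conductor (n f : ℕ) : Prop := Squarefree f ∧ f.Coprime (30 * n)

section proof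

open Filter Topology
open Pool.Agent.N869.ZE.A
open Pool.Agent.N969.P15 (Qc)

lemma coprime_of {n r f : ℕ} (hf : Conductor n f) {d : Fin r → ℕ} (hd : d ∈ tuples r f) (i : Fin r) :
    n.Coprime (d i) := by
  refine Nat.coprime_of_dvd fun p hp h1 h2 => ?_
  have h3 := (hd.2.2 p hp).2 ⟨i, h2⟩
  have h4 := Nat.dvd_gcd h3 (h1.trans (Dvd.intro_left 30 rfl : n ∣ 30 * n))
  rw [Nat.coprime_iff_gcd_eq_one.1 hf.2] at h4
  exact hp.one_lt.ne' (Nat.dvd_one.1 h4)

lemma setting {n r f : ℕ} (hn : Twist n) (hf : Conductor n f) {d : Fin r → ℕ}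
    (hd : d ∈ tuples r f) : Setting d n :=
  ⟨hd.1, hd.2.1, hn, coprime_of hf hd⟩

lemma rz {n r f : ℕ} (hn : Twist n) (hf : Conductor n f) {d : Fin r → ℕ} (hd : d ∈ tuples r f)
    (T : Finset (Fin r)) : RankZeroShaTwo (-(n : ℤ) * ∏ i ∈ T, (d i : ℤ)) ↔
      Qc (n * Pool.Agent.N856.JL.sfp (∏ i ∈ T, d i)) :=
  Pool.Agent.N856.JL.Res.rz_prod ⟨hd.1, hn, coprime_of hf hd⟩ T

lemma dens_of {P Q Q' : ℕ → Prop} (hQ : ∀ m, P m → (Q m ↔ Q' m))
    (h : ∀ (i1 : DecidablePred fun f => P f ∧ Q f) (i2 : DecidablePred P),
      Tendsto (fun X : ℕ => ((@Finset.filter ℕ (fun f => P f ∧ Q f) i1 (Finset.Icc 1 X)).card : ℝ) /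
        ((@Finset.filter ℕ P i2 (Finset.Icc 1 X)).card : ℝ)) atTop (𝓝 1)) :
    HasDensity P Q' 1 := by
  have e : (fun m => P m ∧ Q m) = fun m => P m ∧ Q' m :=
    funext fun m => propext (and_congr_right fun h => hQ m h)
  unfold HasDensity Pool.Agent.Results.MP_cd906c_nt.ExactDensityTotallyReal.count
  rw [← e]
  exact h _ _

lemma main {n : ℕ} (hn : Twist n) {r : ℕ} (hr : 2 ≤ r) (𝒯 : Finset (Finset (Fin r)))
    (h𝒯 : ∀ T ∈ 𝒯, T.Nonempty) {δ : ℝ} (hδ : 0 < δ) :
    HasDensity (Conductor n)
      (Close (fun d : Fin r → ℕ => ∀ T ∈ 𝒯, RankZeroShaTwo (-(n : ℤ) * ∏ i ∈ T, (d i : ℤ)))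
        (eta ^ 𝒯.card) δ) 1 := by
  refine dens_of (Q := fun f => (famF r f).Finite ∧ 0 < (famF r f).ncard ∧
    |({d ∈ famF r f | goodF n 𝒯 d}.ncard : ℝ) / ((famF r f).ncard : ℝ) -
      Pool.Agent.N869.QT.L.c2 ^ 𝒯.card| ≤ δ) ?_ ?_
  · intro f hf
    have e : {d ∈ tuples r f | ∀ T ∈ 𝒯, RankZeroShaTwo (-(n : ℤ) * ∏ i ∈ T, (d i : ℤ))} =
        {d ∈ famF r f | goodF n 𝒯 d} := by
      ext d
      refine and_congr_right fun hd => ?_
      exact forall_congr' fun T => forall_congr' fun _ => rz hn hf hd T
    unfold Close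
    rw [e]
    exact Iff.rfl
  · exact fun i1 i2 => fields c2_bd t_AK Pool.Agent.N322.ZE.t_SQ2 t_M hr hn 𝒯 h𝒯 hδ i1 i2

lemma prime_good {n : ℕ} (hn : Twist n) (hp : n.Prime) : NoOrderFour n := by
  have h1 := Pool.Agent.N856.JL.Res.class_iff (r := 0) (d := fun _ => 1) (n := n)
    ⟨fun i => i.elim0, hn, fun i => i.elim0⟩ ∅
  rw [Finset.prod_empty, mul_one] at h1
  have h2 : Pool.Agent.N856.JL.Res.NoOrderFour n := by
    rw [h1, Pool.Agent.N856.JL.sfp_self squarefree_one, mul_one]
    intro b c hbc _ _
    rcases hp.eq_one_or_self_of_dvd b ⟨c, hbc.symm⟩ with h | h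
    · exact Or.inl h
    · right
      subst h
      have : b * c = b * 1 := by rw [hbc, mul_one]
      exact Nat.eq_of_mul_eq_mul_left hp.pos this
  exact h2

lemma rz_one {n : ℕ} (hn : Twist n) (h4 : NoOrderFour n) : RankZeroShaTwo (-(n : ℤ)) := by
  have h1 := Pool.Agent.N856.JL.Res.class_iff (r := 0) (d := fun _ => 1) (n := n)
    ⟨fun i => i.elim0, hn, fun i => i.elim0⟩ ∅
  have h2 := Pool.Agent.N856.JL.Res.rz_prod (r := 0) (d := fun _ => 1) (n := n)
    ⟨fun i => i.elim0, hn, fun i => i.elim0⟩ ∅
  rw [Finset.prod_empty, mul_one] at h1 h2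
  exact h2.2 (h1.1 h4)

end proof

/-- **Main theorem.** Let `n ≡ 23, 47 mod 60` be squarefree and `r ≥ 2`.
(1) For every squarefree `f` prime to `30 n` and every tuple `d = (d_1, …, d_r)` of conductor `f`:
`E_{-n}` is good over `F = ℚ(√d_1, …, √d_r)` (the `2 ^ r` twists of `E_{-n}` over `ℚ` by the `d_T` have
rank zero and no element of order two in `Ш`) if and only if no field `ℚ(√(- n d_T))` has an ideal class
of order four. In this case `[F : ℚ] = 2 ^ r`, `E_{-n}(F)` is finite, `L(E_{-n}/F, s)` is entire and not zero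
at `1`, and the 2-primary part of `Ш(E_{-n}/F)` is finite and killed by `2 ^ r`.
(2) For every set `𝒯` of nonempty subsets of `{1, …, r}` and `δ > 0`, for almost all conductors `f`
(natural density one) the proportion of the tuples of conductor `f` for which the twists of `E_{-n}` by the
`d_T`, `T ∈ 𝒯`, have rank zero and no element of order two in `Ш` differs from `η ^ #𝒯` by at most `δ`.
(3) If `ℚ(√-n)` has no ideal class of order four, for instance if `n` is a prime, then for almost all
conductors `f` the proportion of the tuples with `E_{-n}` good over `F` differs from `η ^ (2 ^ r - 1)` by at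
most `δ`. -/
theorem result (n : ℕ) (hn : Twist n) (r : ℕ) (hr : 2 ≤ r) :
    (∀ f : ℕ, Conductor n f → ∀ d ∈ tuples r f,
      (Good d n ↔ ∀ T : Finset (Fin r), NoOrderFour (n * ∏ i ∈ T, d i)) ∧
      (Good d n → ∀ (K : Type) [Field K] [NumberField K], IsMultiquadratic d K →
        Module.finrank ℚ K = 2 ^ r ∧ BSDZero K (-(n : ℤ)) (∏ i, (d i : ℤ)) r)) ∧
    (∀ 𝒯 : Finset (Finset (Fin r)), (∀ T ∈ 𝒯, T.Nonempty) → ∀ δ : ℝ, 0 < δ →
      HasDensity (Conductor n)
        (Close (fun d : Fin r → ℕ => ∀ T ∈ 𝒯, RankZeroShaTwo (-(n : ℤ) * ∏ i ∈ T, (d i : ℤ)))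
          (eta ^ 𝒯.card) δ) 1) ∧
    (NoOrderFour n → ∀ δ : ℝ, 0 < δ →
      HasDensity (Conductor n) (Close (fun d : Fin r → ℕ => Good d n) (eta ^ (2 ^ r - 1)) δ) 1) ∧
    (n.Prime → NoOrderFour n) ∧
    0.2887 < eta ∧ eta < 0.2889 := by
  obtain ⟨h1, -, -, -, h5, h6⟩ :=
    Pool.Agent.Results.MP_cd906c_nt.ExactDensityTotallyReal.result
  refine ⟨fun f hf d hd => h1 r d n (setting hn hf hd), fun 𝒯 h𝒯 δ hδ => main hn hr 𝒯 h𝒯 hδ,
    fun h4 δ hδ => ?_, prime_good hn, h5, h6⟩
  have h7 := main hn hr (Finset.univ.erase ∅)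
    (fun T hT => Finset.nonempty_iff_ne_empty.2 (Finset.ne_of_mem_erase hT)) hδ
  rw [Finset.card_erase_of_mem (Finset.mem_univ _), Finset.card_univ, Fintype.card_finset,
    Fintype.card_fin] at h7
  have e : (fun d : Fin r → ℕ => ∀ T ∈ Finset.univ.erase ∅,
      RankZeroShaTwo (-(n : ℤ) * ∏ i ∈ T, (d i : ℤ))) = fun d : Fin r → ℕ => Good d n := by
    funext d
    refine propext ⟨fun h T => ?_, fun h T _ => h T⟩
    by_cases hT : T = ∅
    · subst hT
      rw [Finset.prod_empty, mul_one]
      exact rz_one hn h4
    · exact h T (Finset.mem_erase.2 ⟨hT, Finset.mem_univ _⟩)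
  rw [e] at h7
  exact h7

end Pool.Agent.Results.MP_f50388_nt.FieldsX15
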