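import Pool.Agent.N869.GK.Z.F17S
import Pool.Agent.N869.GK.Z.Pat

/-!
# Several twists of the curve of conductor 17 over the multiquadratic fields of a fixed conductor

`E_m` is the quadratic twist by `m` of the curve `E : y² = x (x + 1) (x - 16)` of conductor `17`, without
complex multiplication. Fix any finite set of squarefree integers `c_1, …, c_m`, positive or negative, such that
the `E_{c_i}(ℚ)` are finite and the `Ш(E_{c_i}/ℚ)` have no element of order two (this is true for `c = 1`, and
for 20.97 percent of all squarefree `c`), and `n ≥ 2`. For a squarefree number `f` prime to `34 c_1 ⋯ c_m` we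
consider all the totally real fields `F = ℚ(√d_1, …, √d_n)` of degree `2 ^ n` and of conductor `f` in which
`2`, `17` and the primes dividing the `c_i` split completely.

* For ALMOST EVERY SINGLE conductor `f` (natural density one), and not only on the average over `f`, the
  proportion of the tuples `(d_1, …, d_n)` for which ALL the curves `E_{c_1}, …, E_{c_m}` are good over
  `F` is as close as we like to `κ ^ (m (2 ^ n - 1))`, `κ = ∏_{i ≥ 0} (1 - 2 ^ (-2 i - 1)) = 0.4194…`. Good means: the
  `2 ^ n` curves over `ℚ` that become isomorphic to `E_{c_i}` over `F` have finitely many rational points and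
  no element of order two in the Tate-Shafarevich group. So the `2 ^ n - 1` nontrivial characters of the field,
  and also the different curves, behave like independent random variables.
* Therefore the proportion of the tuples for which AT LEAST ONE of the curves `E_{c_1}, …, E_{c_m}` is good over
  `F` is as close as we like to `1 - (1 - κ ^ (2 ^ n - 1)) ^ m`, which tends to `1` for `m → ∞`: for almost every `f`
  nearly every field of conductor `f` has a good curve in a finite list.
* (joint law, law of large numbers inside the fields) The set of the `M = m (2 ^ n - 1)` pairs `(i, T)`, `T ≠ ∅`, for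
  which `E_{c_i}` is good over the quadratic subfield `ℚ(√d_T)` of `F`, `d_T = ∏_{j ∈ T} d_j`, is distributed like a random set
  which contains each pair with the probability `κ`, independently; so nearly all the fields of conductor `f`
  have nearly `41.9` percent good quadratic subfields for the `E_{c_i}`.
* For all the good fields `E_{c_i}(F)` is finite, `L(E_{c_i}/F, s)` extends to an entire function that does not
  vanish at `s = 1`, and the 2-primary part of `Ш(E_{c_i}/F)` is finite and killed by `2 ^ n`.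

Every field is counted the same number of times (the number of the bases of its group of characters), so
that the proportion of the tuples is the proportion of the fields.

The last point is `MP_1a91b9_nt/MultiquadraticX17` (helper809 and others), where the natural density
`κ / 2` of the quadratic fields is proved as well, for `E` itself. New here: fields of every degree `2 ^ n` with
all the quadratic subfields varying simultaneously, several curves at the same time, and almost every
fixed conductor (the proportions of single `f` are averages over thin sets).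

Proof. The descent over `ℚ` for several general curves with full 2-torsion without a cyclic 4-isogeny, with
the local conditions at the bad places as maximal isotropic subspaces; first and second moments over
random colourings of the primes dividing `f` by the nonempty subsets of `{1, …, n}`; boxes of large primes, the
large sieve for quadratic symbols, all the moments of the numbers of the solutions for all the systems at
once, an inversion of moments with given parity (`Pool/Agent/N869/GK`; parts by helpers 3, 7, 9, 19, 27, 42, 49, 55, 67, 91, 128, 163, 170,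
195, 199, 221, 247, 263, 265, 271, 273, 286, 300, 306, 314, 340, 342, 344, 364, 372, 383, 386, 391, 395,
401, 413, 434, 454, 475, 478, 488, 495, 514, 527, 558, 572, 588, 592, 595, 603, 617, 655, 661, 690, 693,
700, 701, 713, 723, 755, 803, 814, 833, 835, 853, 869, 891, 901, 933, 954).
-/

set_option autoImplicit false

namespace Pool.Agent.Results.MP_f50388_nt.FieldsX17

open Pool.Agent.Results.MP_1a91b9_nt.MultiquadraticX17 (RankZeroShaTwo Good IsMultiquadratic BSDZero)
open Pool.Agent.N869.GK.Z (Independent AlmostAll kappa)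

/-- The squarefree numbers prime to `34 c_1 ⋯ c_m`. -/
def Conductor {m : ℕ} (c : Fin m → ℤ) (f : ℕ) : Prop :=
  Squarefree f ∧ f.Coprime (34 * ∏ i, (c i).natAbs)

/-- `d ≡ 1` modulo `8`, and `d` is a square modulo `17` and modulo the odd primes which divide some `c_i`: these
primes and `2` split in `ℚ(√d)`. -/
def Split {m : ℕ} (c : Fin m → ℤ) (d : ℕ) : Prop :=
  d % 8 = 1 ∧ ∀ p : ℕ, p.Prime → p ≠ 2 → p ∣ 17 * ∏ i, (c i).natAbs → IsSquare (d : ZMod p)

/-- The tuples `(d_1, …, d_n)` such that `ℚ(√d_1, …, √d_n)` has degree `2 ^ n` and conductor `f` (the `d_i` divide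
`f`, and every prime divisor of `f` divides one of them). -/
def tuples {m : ℕ} (c : Fin m → ℤ) (n f : ℕ) : Set (Fin n → ℕ) :=
  {d | (∀ i, d i ∣ f ∧ Split c (d i)) ∧ Independent d ∧ ∀ p : ℕ, p.Prime → p ∣ f → ∃ i, p ∣ d i}

/-- There are tuples of conductor `f`, finitely many, and the proportion of those with the property `P`
differs from `q` by at most `δ`. -/
def Close {m : ℕ} (c : Fin m → ℤ) {n : ℕ} (P : (Fin n → ℕ) → Prop) (q δ : ℝ) (f : ℕ) : Prop :=
  (tuples c n f).Finite ∧ 0 < (tuples c n f).ncard ∧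
    |({d ∈ tuples c n f | P d}.ncard : ℝ) / ((tuples c n f).ncard : ℝ) - q| ≤ δ

/-- There are tuples of conductor `f`, finitely many, and the proportion of those with the property `P` is at
least `q - δ`. -/
def AtLeast {m : ℕ} (c : Fin m → ℤ) {n : ℕ} (P : (Fin n → ℕ) → Prop) (q δ : ℝ) (f : ℕ) : Prop :=
  (tuples c n f).Finite ∧ 0 < (tuples c n f).ncard ∧
    q - δ ≤ ({d ∈ tuples c n f | P d}.ncard : ℝ) / ((tuples c n f).ncard : ℝ)

open Classical in
/-- the set of the pairs `(i, T)`, `T ≠ ∅`, for which the twist of `E_{c_i}` by `d_T = ∏_{j ∈ T} d_j` has finitely many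
rational points and no element of order two in `Ш` (that is, `E_{c_i}` is good over `ℚ(√d_T)`) -/
noncomputable def goods {m : ℕ} (c : Fin m → ℤ) {n : ℕ} (d : Fin n → ℕ) :
    Finset (Fin m × Finset (Fin n)) :=
  ((Finset.univ : Finset (Fin m)) ×ˢ ((Finset.univ : Finset (Finset (Fin n))).erase ∅)).filter
    fun a => RankZeroShaTwo (c a.1 * ∏ j ∈ a.2, (d j : ℤ))

section proof

open Pool.Agent.N869.GK

lemma cond_eq {m : ℕ} (c : Fin m → ℤ) : Conductor c = Z.Conductor (Z.C17.NN c) := by
  funext f
  unfold Conductor Z.Conductor Z.C17.NN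
  have e1 : 34 * ∏ i, (c i).natAbs = 2 * (17 * ∏ i, (c i).natAbs) := by ring
  rw [e1]

lemma tuples_eq {m : ℕ} (c : Fin m → ℤ) (n f : ℕ) : tuples c n f = Z.fam (Z.C17.NN c) true n f := by
  ext d
  constructor
  · rintro ⟨h1, h2, h3⟩
    exact ⟨h1, h2, fun _ => h3⟩
  · rintro ⟨h1, h2, h3⟩
    exact ⟨h1, h2, h3 rfl⟩

lemma indep {n : ℕ} {d : Fin n → ℕ} (h : Independent d) :
    Pool.Agent.Results.MP_1a91b9_nt.MultiquadraticX17.Independent (fun j => (d j : ℤ)) := by
  intro T hT h3
  apply h T hT
  obtain ⟨r, hr⟩ := h3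
  refine ⟨r.natAbs, ?_⟩
  have h4 : ((∏ i ∈ T, d i : ℕ) : ℤ) = r * r := by
    rw [← hr]
    push_cast
    rfl
  have h5 := congrArg Int.natAbs h4
  rw [Int.natAbs_mul, Int.natAbs_natCast] at h5
  exact h5

lemma goods_eq {m : ℕ} {c : Fin m → ℤ} (hs : ∀ i, Squarefree (c i)) {n : ℕ} {d : Fin n → ℕ}
    (hd : ∀ j, 0 < d j) :
    Z.sat ((Finset.univ : Finset (Finset (Fin n))).erase ∅)
      (Z.IsMin (fun i => Z.tw (c i) Z.C17.e17) d) = goods c d := by
  have h1 : Z.sat ((Finset.univ : Finset (Finset (Fin n))).erase ∅)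
      (fun i T => RankZeroShaTwo (c i * ∏ j ∈ T, (d j : ℤ))) = goods c d := rfl
  rw [← h1]
  exact Z.sat_congr fun i T _ => Z.F17.rz_P (hs i).ne_zero
    (Finset.prod_ne_zero_iff.2 fun j _ => by exact_mod_cast (hd j).ne')

lemma quad {m : ℕ} {c : Fin m → ℤ} (hs : ∀ i, Squarefree (c i)) (hz : ∀ i, RankZeroShaTwo (c i))
    {n : ℕ} {d : Fin n → ℕ} (hd : Independent d) {i : Fin m} {T : Finset (Fin n)}
    (h : (i, T) ∈ goods c d) (K : Type) [Field K] [NumberField K]
    (hK : IsMultiquadratic (fun _ : Fin 1 => ∏ j ∈ T, (d j : ℤ)) K) :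
    Module.finrank ℚ K = 2 ∧ BSDZero K (c i) (∏ j ∈ T, (d j : ℤ)) 1 := by
  classical
  unfold goods at h
  obtain ⟨h1, h2⟩ := Finset.mem_filter.1 h
  have hT : T.Nonempty := Finset.nonempty_iff_ne_empty.2
    (Finset.mem_erase.1 (Finset.mem_product.1 h1).2).1
  have hsub : ∀ S : Finset (Fin 1), S = ∅ ∨ S = {0} := by decide
  have hi : Pool.Agent.Results.MP_1a91b9_nt.MultiquadraticX17.Independent
      (fun _ : Fin 1 => ∏ j ∈ T, (d j : ℤ)) := by
    intro S hS
    rcases hsub S with rfl | rfl
    · exact absurd hS (by simp)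
    · rw [Finset.prod_singleton]
      exact indep hd T hT
  have hg : Good (fun _ : Fin 1 => ∏ j ∈ T, (d j : ℤ)) (c i) := by
    intro S
    rcases hsub S with rfl | rfl
    · rw [Finset.prod_empty, mul_one]
      exact hz i
    · rw [Finset.prod_singleton]
      exact h2
  have key := Pool.Agent.Results.MP_1a91b9_nt.MultiquadraticX17.bsd (hs i).ne_zero hi hg K hK
  rw [Finset.prod_const, Finset.card_univ, Fintype.card_fin, pow_one, pow_one] at key
  exact key

end proof

/-- **Main theorem.** Let `n ≥ 2` and let `c_1, …, c_m` be different squarefree integers such that the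
`E_{c_i}(ℚ)` are finite and the `Ш(E_{c_i}/ℚ)` have no element of order two.
(1) For almost all `f` (natural density one) the proportion of the tuples of conductor `f` for which ALL the
`E_{c_i}` are good over `ℚ(√d_1, …, √d_n)` differs from `κ ^ (m (2 ^ n - 1))` by at most `δ`.
(2) For almost all `f` the proportion of the tuples of conductor `f` for which at least one of the `E_{c_i}` is
good over `ℚ(√d_1, …, √d_n)` differs from `1 - (1 - κ ^ (2 ^ n - 1)) ^ m` by at most `δ`.
(3) If `E_{c_i}` is good over `K = ℚ(√d_1, …, √d_n)` then `[K : ℚ] = 2 ^ n`, `E_{c_i}(K)` is finite,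
`L(E_{c_i}/K, s)` is entire and not zero at `1`, and the 2-primary part of `Ш(E_{c_i}/K)` is finite and killed
by `2 ^ n`.
(4) Let `M = m (2 ^ n - 1)`. For every set `𝒥` of sets `J` of pairs `(i, T)`, `T ≠ ∅`, for almost all `f` the proportion
of the tuples of conductor `f` for which the set of the pairs such that `E_{c_i}` is good over the quadratic
field `ℚ(√d_T)` is in `𝒥` differs from `∑_{J ∈ 𝒥} κ ^ #J (1 - κ) ^ (M - #J)` by at most `δ`.
(5) If `m > 0`, then for all `ε > 0` for almost all `f` the proportion of the tuples of conductor `f` for which the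
number of these pairs differs from `κ M` by at most `ε M` is at least `1 - κ (1 - κ) / (ε ^ 2 M) - δ`.
(6) For these pairs `K = ℚ(√d_T)` is a quadratic field, `E_{c_i}(K)` is finite, `L(E_{c_i}/K, s)` is entire and
not zero at `1`, and the 2-primary part of `Ш(E_{c_i}/K)` is finite and killed by `2`. -/
theorem result (m n : ℕ) (hn : 2 ≤ n) (c : Fin m → ℤ) (hinj : Function.Injective c)
    (hs : ∀ i, Squarefree (c i)) (hz : ∀ i, RankZeroShaTwo (c i)) :
    (∀ δ : ℝ, 0 < δ → AlmostAll (Conductor c)
      (Close c (fun d : Fin n → ℕ => ∀ i, Good (fun j => (d j : ℤ)) (c i))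
        (kappa ^ (m * (2 ^ n - 1))) δ)) ∧
    (∀ δ : ℝ, 0 < δ → AlmostAll (Conductor c)
      (Close c (fun d : Fin n → ℕ => ∃ i, Good (fun j => (d j : ℤ)) (c i))
        (1 - (1 - kappa ^ (2 ^ n - 1)) ^ m) δ)) ∧
    (∀ f : ℕ, ∀ d ∈ tuples c n f, ∀ i, Good (fun j => (d j : ℤ)) (c i) →
      ∀ (K : Type) [Field K] [NumberField K], IsMultiquadratic (fun j => (d j : ℤ)) K →
        Module.finrank ℚ K = 2 ^ n ∧ BSDZero K (c i) (∏ j, (d j : ℤ)) n) ∧
    (∀ 𝒥 : Finset (Finset (Fin m × Finset (Fin n))), (∀ J ∈ 𝒥, ∀ a ∈ J, a.2.Nonempty) →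
      ∀ δ : ℝ, 0 < δ → AlmostAll (Conductor c) (Close c (fun d : Fin n → ℕ => goods c d ∈ 𝒥)
        (∑ J ∈ 𝒥, kappa ^ J.card * (1 - kappa) ^ (m * (2 ^ n - 1) - J.card)) δ)) ∧
    (0 < m → ∀ ε δ : ℝ, 0 < ε → 0 < δ → AlmostAll (Conductor c) (AtLeast c
      (fun d : Fin n → ℕ => |((goods c d).card : ℝ) - kappa * (m * (2 ^ n - 1) : ℕ)| ≤
        ε * (m * (2 ^ n - 1) : ℕ))
      (1 - kappa * (1 - kappa) / (ε ^ 2 * (m * (2 ^ n - 1) : ℕ))) δ)) ∧
    (∀ f : ℕ, ∀ d ∈ tuples c n f, ∀ i, ∀ T : Finset (Fin n), (i, T) ∈ goods c d →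
      ∀ (K : Type) [Field K] [NumberField K],
        IsMultiquadratic (fun _ : Fin 1 => ∏ j ∈ T, (d j : ℤ)) K →
        Module.finrank ℚ K = 2 ∧ BSDZero K (c i) (∏ j ∈ T, (d j : ℤ)) 1) ∧
    0.4194 < kappa ∧ kappa < 0.4195 := by
  have hT : ∀ T ∈ (Finset.univ : Finset (Finset (Fin n))).erase ∅, T.Nonempty := fun T hT =>
    Finset.nonempty_iff_ne_empty.2 (Finset.ne_of_mem_erase hT)
  have hcard : ((Finset.univ : Finset (Finset (Fin n))).erase ∅).card = 2 ^ n - 1 := by
    rw [Finset.card_erase_of_mem (Finset.mem_univ _), Finset.card_univ, Fintype.card_finset,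
      Fintype.card_fin]
  have hr := fun i => Pool.Agent.N869.GK.Z.F17.root_of (hs i) (hz i)
  have hE := fun i => Pool.Agent.N869.GK.Z.C17.even_of (hs i) (hr i)
  have hA := fun (i j : Fin m) (hij : i ≠ j) => Pool.Agent.N869.GK.Z.C17.apart_of (hs i) (hs j)
    (hr i) (hr j) fun h => hij (hinj h)
  have hpos : ∀ f, Conductor c f → ∀ d ∈ tuples c n f, ∀ j, 0 < d j := fun f hf d hd j =>
    Nat.pos_of_ne_zero fun h => hf.1.ne_zero (zero_dvd_iff.1 (h ▸ (hd.1 j).1))
  refine ⟨fun δ hδ => ?_, fun δ hδ => ?_, fun f d hd i hg K _ _ hK => ?_, fun 𝒥 h𝒥 δ hδ => ?_,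
    fun hm ε δ hε hδ => ?_, fun f d hd i T h K _ _ hK => quad hs hz hd.2.1 h K hK,
    Pool.Agent.N869.GK.Z.kappa_bd.1, Pool.Agent.N869.GK.Z.kappa_bd.2⟩
  · have key := Pool.Agent.N869.GK.Z.F17.fields17 true (fun _ => hn) hinj hs hz hδ
    rw [← cond_eq] at key
    refine key.mono fun f hf h => ?_
    obtain ⟨h1, h2, h3⟩ := h
    rw [← tuples_eq] at h1 h2 h3
    exact ⟨h1, h2, h3⟩
  · have key := Pool.Agent.N869.GK.Z.F17.fields17_one true (fun _ => hn) hinj hs hz hδ
    rw [← cond_eq] at key
    refine key.mono fun f hf h => ?_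
    obtain ⟨h1, h2, h3⟩ := h
    rw [← tuples_eq] at h1 h2 h3
    exact ⟨h1, h2, h3⟩
  · exact Pool.Agent.Results.MP_1a91b9_nt.MultiquadraticX17.bsd (hs i).ne_zero (indep hd.2.1) hg K hK
  · have key := Pool.Agent.N869.GK.Z.law_pat' (Pool.Agent.N869.GK.Z.C17.NN_pos hs)
      (Pool.Agent.N869.GK.Z.C17.kane_c hs) hE hA true n (fun _ => hn) _ hT 𝒥
      (fun J hJ a ha => Finset.mem_product.2 ⟨Finset.mem_univ _, Finset.mem_erase.2
        ⟨Finset.nonempty_iff_ne_empty.1 (h𝒥 J hJ a ha), Finset.mem_univ _⟩⟩) hδ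
    rw [hcard, ← cond_eq] at key
    refine key.mono fun f hf h => ?_
    obtain ⟨h1, h2, h3⟩ := h.congr (Q := fun d => goods c d ∈ 𝒥) fun d hd => by
      rw [← tuples_eq] at hd
      rw [goods_eq hs (hpos f hf d hd)]
    rw [← tuples_eq] at h1 h2 h3
    exact ⟨h1, h2, h3⟩
  · have hM : 0 < m * ((Finset.univ : Finset (Finset (Fin n))).erase ∅).card := by
      rw [hcard]
      exact Nat.mul_pos hm (Nat.sub_pos_of_lt (Nat.one_lt_two_pow (by omega)))
    have key := Pool.Agent.N869.GK.Z.law_num (Pool.Agent.N869.GK.Z.C17.NN_pos hs)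
      (Pool.Agent.N869.GK.Z.C17.kane_c hs) hE hA true n (fun _ => hn) _ hT hM hε hδ
    rw [hcard, ← cond_eq] at key
    refine key.mono fun f hf h => ?_
    obtain ⟨h1, h2, h3⟩ := h.mono (Q := fun d : Fin n → ℕ =>
      |((goods c d).card : ℝ) - kappa * (m * (2 ^ n - 1) : ℕ)| ≤ ε * (m * (2 ^ n - 1) : ℕ))
      fun d hd h => by
        rw [← tuples_eq] at hd
        rwa [goods_eq hs (hpos f hf d hd)] at h
    rw [← tuples_eq] at h1 h2 h3
    exact ⟨h1, h2, h3⟩

end Pool.Agent.Results.MP_f50388_nt.FieldsX17
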