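import Pool.Agent.N856.QL.Main

/-!
# The Gaussian law of the order of the Tate-Shafarevich group of a fixed curve over real quadratic fields

`E_{-n}` is the twist by `-n` of the modular curve `X_0(15)` (no complex multiplication), `n` squarefree,
`n ≡ 23, 47` modulo `60`, such that `E_{-n}(ℚ)` is finite and `Ш(E_{-n}/ℚ)` has no element of order two
(all the PRIMES `n` of these classes, for example). `𝒩` is any finite nonempty set of such `n`: the curves
are fixed. The number fields `K_d = ℚ(√d)` vary: `d > 1` squarefree, `d ≡ 1` modulo `12`, `d ≡ ± 1` modulo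
`5`, and the symbols `(d / p) = ε_p` are prescribed arbitrarily for all the primes `p` that divide one of
the `n`; `i_n` is the number of the `p ∣ n` with `ε_p = -1` (inert in `K_d`). We prove:

* The natural density of the `d` for which, for ALL the `n` in `𝒩`, the group `E_{-n}(K_d)` is finite,
  `L(E_{-n}/K_d, 1) ≠ 0`, `Ш(E_{-n}/K_d)[2^∞]` is killed by two and of order exactly
  `4 ^ (ω(d) + i_n - 2)`, and the 2-part of the formula of Birch and Swinnerton-Dyer holds, is
  `η ^ #𝒩`, `η = (1 - 1/2) (1 - 1/4) (1 - 1/8) ⋯`, and on this set `ω(d)` has the Gaussian law: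
  with `ω(d) ≤ log log X + t √(log log X)` added the density is `η ^ #𝒩 Φ(t)`, for every real `t`.

So for a fixed elliptic curve over the rational numbers the formula predicts, and we prove, for a positive
proportion of the real quadratic fields an exact 2-primary part of `Ш`, with the law of Erdős and Kac for the
exponent; for two curves the quotient of the orders is `4 ^ (i_n - i_{n'})`, the same for all the good fields
with the same splitting.

Proof. The exact criterion (`MP_9ab903_nt.TwoPartX15RealFields`, project QB): the properties over `K_d` hold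
iff `ℚ(√-nd)` has no ideal class of order four. The density machine (bilinear sums of Jacobi symbols, random
alternating matrices, `N916/AM`, `N856/JM`) is proved here for all the events that depend on the numbers
of the prime factors of `d` in the residue classes modulo any `M`, uniformly: such an event is
asymptotically independent of the class groups. The Gaussian law for the squarefree `d` in given classes is
proved with characteristic functions (helper160, `N160/SN`, generalised to any modulus). The arithmetic: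
helpers named in `MP_9ab903_nt.TwoPartX15RealFields`.
-/

set_option autoImplicit false

open NumberField IsDedekindDomain WeierstrassCurve MeasureTheory ProbabilityTheory Filter Topology

namespace Pool.Agent.Results.MP_f50388_nt.GaussianLawOfSha

open scoped Classical

open Pool.Agent.TH841.NF.D (Sha)

/-- The curve given by the equation of `W` over the ring `R`. -/
abbrev base (W : WeierstrassCurve ℤ) (R : Type) [CommRing R] : WeierstrassCurve R :=
  W.map (Int.castRingHom R)

/-- The number of the affine points `(x, y)` over the ring `R`. -/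
noncomputable def pts (W : WeierstrassCurve ℤ) (R : Type) [CommRing R] : ℕ :=
  Nat.card {P : R × R // (base W R).toAffine.Equation P.1 P.2}

section

variable {K : Type} [Field K] [NumberField K]

/-- `a_v = N v + 1 - #W(k_v)`, the points over the residue field `k_v` counted with the point at
infinity. -/
noncomputable def a (W : WeierstrassCurve ℤ) (v : HeightOneSpectrum (𝓞 K)) : ℤ :=
  (Ideal.absNorm v.asIdeal : ℤ) - pts W (𝓞 K ⧸ v.asIdeal)

/-- The Euler factor of `L(W/K, s)` at `v` : `(1 - a_v N v^(-s) + N v^(1 - 2 s))⁻¹` if the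
discriminant is a unit at `v`, and `(1 - a_v N v^(-s))⁻¹` otherwise. -/
noncomputable def factor (W : WeierstrassCurve ℤ) (s : ℂ) (v : HeightOneSpectrum (𝓞 K)) : ℂ :=
  (1 - (a W v : ℂ) * (Ideal.absNorm v.asIdeal : ℂ) ^ (-s) +
    if ((W.Δ : ℤ) : 𝓞 K) ∈ v.asIdeal then 0 else (Ideal.absNorm v.asIdeal : ℂ) ^ (1 - 2 * s))⁻¹

/-- The equation is minimal at the finite place `v` of `K`: no change of variables over `K` that
keeps the coefficients integral at `v` decreases the valuation of the discriminant. -/
def MinimalAt (W : WeierstrassCurve ℤ) (v : HeightOneSpectrum (𝓞 K)) : Prop :=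
  ∀ C : VariableChange K, v.valuation K (C • base W K).a₁ ≤ 1 →
    v.valuation K (C • base W K).a₂ ≤ 1 → v.valuation K (C • base W K).a₃ ≤ 1 →
    v.valuation K (C • base W K).a₄ ≤ 1 → v.valuation K (C • base W K).a₆ ≤ 1 →
    v.valuation K (C • base W K).Δ ≤ v.valuation K (base W K).Δ

/-- `E⁰(K_v)`, the group of the points of `W` over the completion `K_v` with nonsingular reduction:
the points `(x, y)` where `x` is not integral, or one of the partial derivatives of
`y² + a₁ x y + a₃ y - x³ - a₂ x² - a₄ x - a₆` is a unit at `(x, y)`, and the point at infinity. -/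
noncomputable def nonsing (W : WeierstrassCurve ℤ) (v : HeightOneSpectrum (𝓞 K)) :
    AddSubgroup (base W (v.adicCompletion K)).toAffine.Point :=
  AddSubgroup.closure {P | ∀ x y h, P = Affine.Point.some x y h →
    1 < Valued.v x ∨ Valued.v (W.a₁ * y - (3 * x ^ 2 + 2 * W.a₂ * x + W.a₄)) = 1 ∨
      Valued.v (2 * y + W.a₁ * x + W.a₃) = 1}

/-- The Tamagawa number `c_v = [E(K_v) : E⁰(K_v)]` of a minimal equation. -/
noncomputable def c (W : WeierstrassCurve ℤ) (v : HeightOneSpectrum (𝓞 K)) : ℕ :=
  (nonsing W v).index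

end

section

variable (K : Type) [Field K] [NumberField K]

/-- The product of the Tamagawa numbers. -/
noncomputable def Tam (W : WeierstrassCurve ℤ) : ℕ := ∏ᶠ v : HeightOneSpectrum (𝓞 K), c W v

/-- The order of the torsion subgroup of `W(K)`. -/
noncomputable def torsOrder (W : WeierstrassCurve ℤ) : ℕ :=
  Nat.card (AddCommGroup.torsion (base W K).toAffine.Point)

/-- The 2-primary part of the Tate-Shafarevich group over `K`. -/
noncomputable abbrev Sha2 (W : WeierstrassCurve ℤ) : AddSubgroup (Sha (base W K)) :=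
  AddCommGroup.primaryComponent (Sha (base W K)) 2

/-- `L` is the L-function of the minimal equation `W` over `K`: it is entire and it is given by the
Euler product for `Re s > 3/2`. -/
def IsL (W : WeierstrassCurve ℤ) (L : ℂ → ℂ) : Prop :=
  Differentiable ℂ L ∧ ∀ s : ℂ, 3 / 2 < s.re → HasProd (factor (K := K) W s) (L s)

end

/-- `4 x³ + b₂ x² + 2 b₄ x + b₆ = (2 y + a₁ x + a₃)²` at the points of the curve. -/
def cubic (W : WeierstrassCurve ℤ) (x : ℝ) : ℝ :=
  4 * x ^ 3 + W.b₂ * x ^ 2 + 2 * W.b₄ * x + W.b₆

/-- The real period `∫_{W(ℝ)} |dx / (2y + a₁x + a₃)|`. -/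
noncomputable def realPeriod (W : WeierstrassCurve ℤ) : ℝ :=
  2 * ∫ x in {x : ℝ | 0 < cubic W x}, 1 / √(cubic W x)

/-- The order of the Tate-Shafarevich group predicted by the formula in rank zero for the curve `W` over
a real quadratic field `K` (there are two real places, with the same period), for the value `l` of the
L-function at `s = 1`: `l √|disc K| #W(K)_tors² / (Ω² ∏ c_v)`. -/
noncomputable def anOrder (K : Type) [Field K] [NumberField K] (W : WeierstrassCurve ℤ) (l : ℂ) : ℂ :=
  l * (Real.sqrt |(discr K : ℝ)| : ℝ) * (torsOrder K W : ℂ) ^ 2 /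
    ((realPeriod W : ℂ) ^ 2 * (Tam K W : ℂ))

/-- The 2-part of the strong conjecture of Birch and Swinnerton-Dyer for the curve `W` over a real
quadratic field `K`, in the case that the rank is zero and `Ш[2^∞]` is a vector space of dimension
`2 m` over the field with two elements: the equation `W` is minimal at all the finite places, `W(K)` is
finite, `Ш(W/K)[2^∞]` is killed by two and has order `4 ^ m`, `L(W/K, s)` is entire, `L(W/K, 1) ≠ 0`,
and the predicted order of `Ш` is a rational number with 2-adic valuation `2 m`. -/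
def TwoPart (K : Type) [Field K] [NumberField K] (W : WeierstrassCurve ℤ) (m : ℕ) : Prop :=
  (∀ v : HeightOneSpectrum (𝓞 K), MinimalAt W v) ∧ Finite (base W K).toAffine.Point ∧
  (∀ x : Sha2 K W, 2 • x = 0) ∧ Nat.card (Sha2 K W) = 4 ^ m ∧
  {v : HeightOneSpectrum (𝓞 K) | c W v ≠ 1}.Finite ∧ 0 < Tam K W ∧ 0 < torsOrder K W ∧
  0 < realPeriod W ∧
  ∃ (L : ℂ → ℂ) (z : ℚ), IsL K W L ∧ L 1 ≠ 0 ∧ anOrder K W (L 1) = z ∧
    z ≠ 0 ∧ padicValRat 2 z = 2 * m

/-- The twist `E_{-n}` of `X_0(15)` by `-n`, `n ≡ 3` modulo `4`: `y² + x y = x³ - ((7 m + 1)/4) x² - 9 m² x`,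
`m = -n`. -/
def E (n : ℕ) : WeierstrassCurve ℤ := ⟨1, -((7 * (-(n : ℤ)) + 1) / 4), 0, -(9 * (-(n : ℤ)) ^ 2), 0⟩

/-- `K` is the quadratic field `ℚ(√d)`. -/
def IsQuad (d : ℕ) (K : Type) [Field K] [NumberField K] : Prop :=
  Module.finrank ℚ K = 2 ∧ ∃ x : K, x ^ 2 = (d : K)

/-- The class of the `n`. -/
def Twist (n : ℕ) : Prop := Squarefree n ∧ (n % 60 = 23 ∨ n % 60 = 47)

/-- The class of the `d`: `2` is unramified in `ℚ(√d)`, `3` and `5` split. -/
def Disc (d : ℕ) : Prop := Squarefree d ∧ d % 12 = 1 ∧ (d % 5 = 1 ∨ d % 5 = 4)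

/-- The number of the prime factors of `n` that are inert in `ℚ(√d)`. -/
def inert (n d : ℕ) : ℕ := (n.primeFactors.filter fun p => jacobiSym d p = -1).card

/-- The number of the primes that are ramified in `ℚ(√d)` plus the number of the inert prime factors
of `n`. -/
def dim (n d : ℕ) : ℕ := d.primeFactors.card + inert n d

/-- `E_{-n}(ℚ)` is finite and `Ш(E_{-n}/ℚ)` has no element of order two. -/
def NoSelmer (n : ℕ) : Prop :=
  Finite (base (E n) ℚ).toAffine.Point ∧ ∀ x : Sha (base (E n) ℚ), 2 • x = 0 → x = 0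

/-- The exponent: `#Ш(E_{-n}/ℚ(√d))[2^∞] = 4 ^ (expo n d)` if `Holds n d`. -/
def expo (n d : ℕ) : ℕ := dim n d - 2

/-- The 2-part of the conjecture of Birch and Swinnerton-Dyer for `E_{-n}` over `ℚ(√d)`, with
`#Ш(E_{-n}/ℚ(√d))[2^∞] = 4 ^ (expo n d)`. -/
def Holds (n d : ℕ) : Prop := 2 ≤ dim n d ∧
  ∀ (K : Type) [Field K] [NumberField K], IsQuad d K → TwoPart K (E n) (expo n d)

/-- the limit `(1 - 1/2) (1 - 1/4) (1 - 1/8) ⋯` -/
noncomputable def eta : ℝ := ∏' i : ℕ, (1 - (1 / 2 : ℝ) ^ (i + 1))

/-- `log log X` -/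
noncomputable def LL (X : ℕ) : ℝ := Real.log (Real.log X)

/-- the number of the `m ≤ X` with the property `P` -/
noncomputable def count (P : ℕ → Prop) (X : ℕ) : ℕ := ((Finset.Icc 1 X).filter fun m => P m).card

/-- among the numbers `m ≤ X` with the property `P`, the proportion of those with the property `Q X m`
tends to `δ` -/
def HasDens (P : ℕ → Prop) (Q : ℕ → ℕ → Prop) (δ : ℝ) : Prop :=
  Tendsto (fun X : ℕ => (count (fun m => P m ∧ Q X m) X : ℝ) / (count P X : ℝ)) atTop (𝓝 δ)

/-- The law of the order of `Ш(E_{-n}/ℚ(√d))[2^∞]` for any finite set of fixed curves, over the real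
quadratic fields with prescribed splitting of the primes that divide the `n`. -/
theorem result :
    (∀ n : ℕ, n.Prime → (n % 60 = 23 ∨ n % 60 = 47) → Twist n ∧ NoSelmer n) ∧
    (∀ 𝒩 : Finset ℕ, 𝒩.Nonempty → (∀ n ∈ 𝒩, Twist n ∧ NoSelmer n) → ∀ ε : ℕ → ℤ,
      (∀ n ∈ 𝒩, ∀ p ∈ n.primeFactors, ε p = 1 ∨ ε p = -1) → ∀ t : ℝ,
      HasDens
        (fun d => Disc d ∧ ∀ n ∈ 𝒩, n.Coprime d ∧ ∀ p ∈ n.primeFactors, jacobiSym d p = ε p)
        (fun X d => 1 < d ∧ (∀ n ∈ 𝒩, Holds n d ∧
          expo n d + 2 = d.primeFactors.card + (n.primeFactors.filter fun p => ε p = -1).card) ∧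
          (d.primeFactors.card : ℝ) ≤ LL X + t * √(LL X))
        (eta ^ 𝒩.card * (gaussianReal 0 1).real (Set.Iic t))) ∧
    0.2887 < eta ∧ eta < 0.2889 :=
  Pool.Agent.N856.QL.Fin.mainB

end Pool.Agent.Results.MP_f50388_nt.GaussianLawOfSha
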