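import Mathlib
import Pool.Agent.N883.SY.Top
import Pool.Agent.N883.SY.Law
import Pool.Agent.N883.FG.Vsq
import Pool.Agent.N883.SX.Few

/-!
# The formula of Birch and Swinnerton-Dyer at the prime three for `y² + y = x³` over a majority of the
# cyclic cubic extensions `F = K(∛D)` of `K = ℚ(√-3)`

`K` is the field of the third roots of unity, `E : y² + y = x³`.  `D` runs through the cube-free
nonunits of `𝓞 K` that are congruent to a third root of unity modulo `3`: these are representatives of
all the classes of `K^* / (K^*)³` that contain an element prime to `3` (except the classes of the units),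
and the fields `F = K(∛D)` are all the cyclic cubic extensions of `K` generated by a cube root of an
element prime to `3`, except `K(∛ω)`; `D`, `D²` give the same field.

Let `D` be outside of one of the nine classes of `D` modulo cubes of the completion at `√-3`, with
`E_D(K)` finite and `Ш(E_D / K)[3^∞] = 0`, `E_D : y² + D y = x³`, and let `t` be the number of the
prime divisors of `D`.  Then, over `F`:

* `E(F)` is finite, `L(E / F, s)` is entire and does not vanish at `1`;
* `Ш(E / F)[3^∞]` is isomorphic to `(ℤ / 3)^s` with `2 t - 8 ≤ s ≤ 2 t + 16`;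
* let `Q(k) = L(E / k, 1) √|disc k| / (2 A)^(r₂)`, `A` the area of the lattice of the periods of
  `dx / (2 y + 1)`, `r₂` the number of the complex places of `k` (`k = F`, `K`).  For every valuation `v`
  of `ℂ` above `3` the `3`-adic order of `Q(F) / Q(K)` is between `2 t - 4` and `2 t - 1`.

Without the assumption on `E_D(K)` and `Ш(E_D / K)`, for ALL the `D` outside of the exceptional class,
`L(E / F, s)` is entire and the `3`-adic order of `L(E / F, 1) / (L(E / K, 1) (2 A)²)` is at least
`2 t - 5`, with equality if and only if `E_D(K)` is finite and `Ш(E_D / K)[3^∞] = 0`.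

The conjecture says that `Q(k)` is `#Ш(E / k) / #E(k)²` times the local factors, which are units
outside of `2` and `3` and bounded powers of `2` and `3`: the model has good reduction outside of `3`.
So for these `F` the `3`-part of the formula for `E / F`, divided by the formula for
`E / K` (`E(K)` is finite and `Ш(E / K)[3^∞] = 0`), holds up to a bounded power of three: the
orders of both sides are `2 t + O(1)`.  For every `B` the proportion of the `D` with these properties
and with at least `B` prime divisors, among ALL the `D`, tends to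
`8 / 9 * ∏_{i ≥ 0} (1 - 3^{-(2 i + 1)}) = 0.5680...`: a majority of the `F`, with unbounded `Ш(E / F)`.

The starting file `CubicExtensions` proves that `Ш(E / F)[3^∞]` is killed by `3` for squarefree
`D = 1` modulo `3` with norm not `1` modulo `9` (two of the nine classes).  New are the other six classes,
cube-free `D`, the order of the group up to a bounded factor, and the `3`-adic order of the central value.
As `F` is abelian over `K`, which is the field of complex multiplication of `E`, the whole
group `Ш(E / F)` is finite for these `F`, by the theorem of Rubin (`L(E / F, 1) ≠ 0`); this is not formalized.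

Lower bound.  Let `B = 1` modulo `9` be a product of prime divisors of `D` and `h` its Kummer
character over `F`.  The cocycles `σ ↦ (h σ) P`, `P` a point of order three (all are defined over `K`),
are locally trivial at all the places of `F`: away from `3` because `B` is a unit times a cube (the
prime divisors of `D` are the cubes of prime ideals of `F`), at `3` because `B` is a cube.  The classes
that vanish in `H¹(F, E)` come from `E(F) / 3 E(F)`.

Upper bound.  The classes of `Ш(E / F)` killed by `√-3` come from characters `h`, `h` the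
Kummer character of an element `b` of `F` with valuations divisible by three outside of `3`.  Genus theory:
the group `V` of these `b` modulo cubes is filtered by the powers of `σ - 1`; the invariants come from `K`
up to index three; those of them that are of the form `σ y / y` are norms from `F`, up to roots of unity, so
their exponents satisfy one linear equation for every prime divisor of `D`, the norm residue symbol, and
the matrix of this system is the Laplacian of the cubic residue symbols, of full rank if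
`Ш(E_D / K)[3^∞] = 0` and `E_D(K)` is finite.

Joint work: projects SX, SY (helper263, helper335, helper383, helper106, helper628, helper364, helper505,
helper252, helper616, helper749, helper222, helper353, helper403, helper698, helper438, helper530,
helper346, helper195, helper756, helper886, helper745, helper249, helper703, helper482, helper375,
helper826, helper551, helper148, helper883) on top of project FF; see `Pool/Agent/N883/SY/End.lean`,
`Pool/Agent/N883/SX/End.lean`, `Pool/Agent/N883/FF/End.lean` and the headers of the files imported there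
(helper419, helper499 for the sum over the sets of primes).
-/

set_option autoImplicit false

namespace Pool.Agent.Results.MP_f50388_nt.MajorityCubicExtensions

open NumberField IsDedekindDomain WeierstrassCurve
open Pool.Agent.TH841.NF.D (Sha)
open scoped Classical

/-- The curve `E_D : y² + D y = x³`. -/
def curve {F : Type} [Field F] (D : F) : WeierstrassCurve F := ⟨0, 0, D, 0, 0⟩

/-- `L` is entire, and it is the `L`-series of `W` for `Re s > 3 / 2`. -/
def IsLFunction {F : Type} [Field F] [NumberField F] (W : WeierstrassCurve F) (L : ℂ → ℂ) : Prop :=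
  Differentiable ℂ L ∧ ∀ s : ℂ, 3 / 2 < s.re →
    LSeriesSummable ((fun n : ℤ => (n : ℂ)) ∘ W.LFunction) s ∧ L s = W.LSeries s

/-- The quotient `z √|disc F| / (2 A)^(r₂)` for a totally complex field `F`, where `A` is the
area of a fundamental parallelogram of the lattice `Λ`. -/
noncomputable def quotient (F : Type) [Field F] [NumberField F] (Λ : PeriodPair) (z : ℂ) : ℂ :=
  z * ((Real.sqrt |(discr F : ℝ)| : ℝ) : ℂ) /
    ((2 * |((starRingEnd ℂ) Λ.ω₁ * Λ.ω₂).im| : ℝ) : ℂ) ^ (Module.finrank ℚ F / 2)

/-- The quotient `x / (y (2 A)²)`; `A` is the area of a fundamental parallelogram of the lattice `Λ`. -/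
noncomputable def relativeValue (Λ : PeriodPair) (x y : ℂ) : ℂ :=
  x / (y * ((2 * |((starRingEnd ℂ) Λ.ω₁ * Λ.ω₂).im| : ℝ) : ℂ) ^ 2)

variable {K : Type} [Field K] [NumberField K]

/-- `D` is a cube-free nonunit, congruent to a third root of unity modulo `3`. -/
def InFamily (D : 𝓞 K) : Prop :=
  ¬ IsUnit D ∧ (∀ x : 𝓞 K, x ^ 3 ∣ D → IsUnit x) ∧ ∃ ω : 𝓞 K, ω ^ 3 = 1 ∧ (3 : 𝓞 K) ∣ D - ω

/-- The exceptional class: `D` is `1` modulo `3` and its norm is `1` modulo `9`. -/
def Exceptional (D : 𝓞 K) : Prop := (3 : 𝓞 K) ∣ D - 1 ∧ (9 : ℤ) ∣ Algebra.norm ℤ D - 1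

/-- `E_D(K)` is finite and the `3`-primary part of `Ш(E_D / K)` is trivial. -/
def FiniteAndTrivial (D : 𝓞 K) : Prop :=
  Finite (curve (D : K)).toAffine.Point ∧ ∀ (n : ℕ) (x : Sha (curve (D : K))), 3 ^ n • x = 0 → x = 0

/-- The number of the prime ideals that divide `D`. -/
noncomputable def numberOfPrimes (D : 𝓞 K) : ℕ :=
  {v : HeightOneSpectrum (𝓞 K) | D ∈ v.asIdeal}.ncard

/-- The `3`-primary part of `Ш(E / F)` is isomorphic to `(ℤ / 3)^s`. -/
def ShaThree (F : Type) [Field F] [NumberField F] (s : ℕ) : Prop :=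
  ∃ f : (Fin s → ZMod 3) →+ Sha (curve (1 : F)), Function.Injective f ∧
    ∀ x : Sha (curve (1 : F)), (∃ n : ℕ, 3 ^ n • x = 0) ↔ x ∈ Set.range f

/-- `Ш(E / F)` contains a subgroup isomorphic to `(ℤ / 3)^m`. -/
def LargeSha (F : Type) [Field F] [NumberField F] (m : ℕ) : Prop :=
  ∃ f : (Fin m → ZMod 3) →+ Sha (curve (1 : F)), Function.Injective f

/-- The `3`-adic order of `q` is between `2 t - 4` and `2 t - 1`, for every valuation of `ℂ` above `3`. -/
def OrderBetween (q : ℂ) (t : ℕ) : Prop :=
  ∀ (Γ : Type) [LinearOrderedCommGroupWithZero Γ] (v : Valuation ℂ Γ), v 3 < 1 →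
    v 3 ^ (2 * t) ≤ v q * v 3 ∧ v q * v 3 ^ 4 ≤ v 3 ^ (2 * t)

/-- The rank part of the conjecture for `E / F` and the `3`-part of the formula for `E / F` relative to `E / K`,
up to a bounded power of three; `t` is the number of the prime divisors of `D`. -/
def Formula (K F : Type) [Field K] [NumberField K] [Field F] [NumberField F] (t : ℕ) : Prop :=
  (curve (1 : F)).IsElliptic ∧ Finite (curve (1 : F)).toAffine.Point ∧
  (∃ s : ℕ, 2 * t ≤ s + 8 ∧ s ≤ 2 * t + 16 ∧ ShaThree F s) ∧
  ∃ LF LK : ℂ → ℂ, IsLFunction (curve (1 : F)) LF ∧ IsLFunction (curve (1 : K)) LK ∧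
    LF 1 ≠ 0 ∧ LK 1 ≠ 0 ∧
    ∀ Λ : PeriodPair, Λ.g₂ = 0 → Λ.g₃ = -1 → OrderBetween (quotient F Λ (LF 1) / quotient K Λ (LK 1)) t

/-- `L(E / F, s)` is entire, and for every valuation of `ℂ` above `3` the `3`-adic order of
`L(E / F, 1) / (L(E / K, 1) (2 A)²)` is at least `2 t - 5`, with equality if and only if `P` holds. -/
def Law (K F : Type) [Field K] [NumberField K] [Field F] [NumberField F] (t : ℕ) (P : Prop) : Prop :=
  ∃ LF LK : ℂ → ℂ, IsLFunction (curve (1 : F)) LF ∧ IsLFunction (curve (1 : K)) LK ∧ LK 1 ≠ 0 ∧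
    ∀ Λ : PeriodPair, Λ.g₂ = 0 → Λ.g₃ = -1 →
    ∀ (Γ : Type) [LinearOrderedCommGroupWithZero Γ] (v : Valuation ℂ Γ), v 3 < 1 →
      v (relativeValue Λ (LF 1) (LK 1)) * v 3 ^ 5 ≤ v 3 ^ (2 * t) ∧
      (v (relativeValue Λ (LF 1) (LK 1)) * v 3 ^ 5 = v 3 ^ (2 * t) ↔ P)

theorem result (K : Type) [Field K] [NumberField K] [IsCyclotomicExtension {3} ℚ K] :
    (∃ c : ℝ, 0 < c ∧ ∃ X₀ : ℕ, ∀ X : ℕ, X₀ ≤ X →
      c * X ≤ ({D : 𝓞 K | Algebra.norm ℤ D ≤ X ∧ InFamily D}.ncard : ℝ)) ∧
    (∀ B : ℕ, Filter.Tendsto (fun X : ℕ =>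
      ({D : 𝓞 K | Algebra.norm ℤ D ≤ X ∧ InFamily D ∧ ¬ Exceptional D ∧
        FiniteAndTrivial D ∧ B ≤ numberOfPrimes D}.ncard : ℝ) /
        ({D : 𝓞 K | Algebra.norm ℤ D ≤ X ∧ InFamily D}.ncard : ℝ)) Filter.atTop
      (nhds (8 / 9 * ∏' i : ℕ, (1 - (1 / 3 : ℝ) ^ (2 * i + 1))))) ∧
    (0.568 : ℝ) < 8 / 9 * ∏' i : ℕ, (1 - (1 / 3 : ℝ) ^ (2 * i + 1)) ∧
    FiniteAndTrivial (1 : 𝓞 K) ∧ (∃ Λ : PeriodPair, Λ.g₂ = 0 ∧ Λ.g₃ = -1) ∧
    ∀ D : 𝓞 K, InFamily D → ¬ Exceptional D →
      (∃ (F : Type) (_ : Field F) (_ : NumberField F) (_ : Algebra K F) (θ : F),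
        Module.finrank K F = 3 ∧ θ ^ 3 = algebraMap K F D) ∧
      ∀ (F : Type) [Field F] [NumberField F] [Algebra K F] (θ : F),
        Module.finrank K F = 3 → θ ^ 3 = algebraMap K F D →
        (FiniteAndTrivial D → Formula K F (numberOfPrimes D)) ∧
        Law K F (numberOfPrimes D) (FiniteAndTrivial D) ∧
        (Finite (curve (1 : F)).toAffine.Point → ∀ m : ℕ,
          (m + 8 ≤ 2 * numberOfPrimes D ∨ m + 3 ≤ numberOfPrimes D) → LargeSha F m) := by
  obtain ⟨h1, h2, -, h4⟩ := Pool.Agent.N883.FF.finalB K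
  refine ⟨h1, Pool.Agent.N883.SX.lim_many K, h4, ?_, ?_, fun D hD hx => ?_⟩
  · obtain ⟨⟨j, -⟩, -⟩ := Pool.Agent.Y455.CTK.jex K
    have h5 := Pool.Agent.Y696.CTE.fin_one (K := K)
    have h6 := Pool.Agent.Y696.CTE.partsE.sh1 K j
    have e : (((1 : 𝓞 K) : 𝓞 K) : K) = (1 : K) := map_one _
    unfold FiniteAndTrivial
    rw [e]
    exact ⟨h5, h6⟩
  · obtain ⟨Λ, g2, g3⟩ := (Pool.Agent.Y696.CTK.PER 1 1 one_ne_zero (one_pow 3)).1
    exact ⟨Λ, g2, by rw [g3, one_pow]⟩
  · obtain ⟨-, -, a3, -, a5⟩ := h2 D hD hx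
    refine ⟨a3, fun F _ _ _ θ hd hθ => ⟨fun ht => ?_,
      Pool.Agent.N883.SY.lawAll (fun J _ π e i h1 _ h3 => Pool.Agent.N883.FG.dz h1 h3) hD hx hd hθ,
      fun hf m hm => ?_⟩⟩
    · obtain ⟨⟨b1, b2, -⟩, b3⟩ := (a5 ht).2 F θ hd hθ
      obtain ⟨LF, LK, c1, c2, c3, c4, c5⟩ := Pool.Agent.N883.SY.finLv hD hx ht hd hθ
      exact ⟨b1, b2, Pool.Agent.N883.SY.topSY hD hx ht hd hθ b2 b3, LF, LK, c1, c2, c3, c4,
        fun Λ g2 g3 Γ _ v hv => c5 Λ g2 g3 Γ v hv⟩
    · rcases hm with hm | hm
      · exact (Pool.Agent.N883.SY.finalSY hD hx hd hθ).1 hf m hm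
      · exact Pool.Agent.N883.SX.finalSX hD hd hθ hf m hm

end Pool.Agent.Results.MP_f50388_nt.MajorityCubicExtensions
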